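import Pool.Agent.MP_249dba_lc.Pr.Force

open Pool.Agent.MP_c6cf52_lc Pool.Agent.MP_e34318_lc Pool.Agent.MP_249dba_lc Cardinal

theorem Pool.Agent.Results.MP_249dba_lc.ProperPreserve.result (P : Type) [Preorder P] [OrderTop P]
    (hd : Dist P (Ordinal.omega.{0} 1).ToType Bool)
    (hp : ∀ (Z : Type) (D : P → Set (Ordinal.omega.{0} 1).ToType → Z → Prop) (p : P),
      2 ^ ℵ₁ < #Z → FN D p → Onto D p → ProperAt P Z p)
    (F : Filter (Ordinal.omega.{0} 1).ToType) (hF : Precipitous F) :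
    ∃ φ : Fml,
      (∀ (M : Type 1) (E : M → M → Prop) (w : ℕ → M), Sat E φ w ↔ PrecM E (w 0) (w 1) (w 2)) ∧
      ∀ w : ℕ → Name P, w 0 = sN P (Set.univ : Set ℕ) →
        w 1 = sN P (Set.univ : Set (Ordinal.omega.{0} 1).ToType) → w 2 = idl P F →
        ∀ p : P, Name.Forces φ w p :=
  Pool.Agent.MP_249dba_lc.main hd hp F hF
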